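import Mathlib
import Pool.Agent.HypJac.TDefs
import Pool.Agent.HypJac.RDefs
import Pool.Agent.HypJac.Fin
import Pool.Agent.HypJac.HZN2

/-!
# Tate's Birch and Swinnerton-Dyer conjecture for the Jacobians of the hyperelliptic curves
`y² = f₀(x) + u x + v` of any genus with `r` marked points
-/

namespace Pool.Agent.Results.MP_9faec4_nt.HyperellipticJacobians

open Polynomial Pool.Agent.HypTate Pool.Agent.TateBSD

/-- **Rank equals order for the Jacobians of the hyperelliptic curves `y² = f₀(x) + u x + v` with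
`r` marked points.** Let `N` be a positive even integer, `l ≥ 0`, `R₀ ≃ ℤ[1/N][t_1, …, t_l]`,
`g ≥ 1`, `f₀` any monic polynomial of degree `2 g + 1` over `R₀`, and `R = (fam f₀ r).R` the
coordinate ring of the `r`-fold fibre power of the affine curve `y² = F(x)`,
`F = f₀(x) + u x + v`, over `R₀[u, v, 1 / Res(F, F')]`. Then `R` is a domain; the ideal class
group of `K[x, y] / (y² - F(x))`, i.e. the group of `K`-points of the Jacobian, is free of rank
`r` for `K = Frac R`; and the Euler product `Φ₁` over all maximal ideals of `R` converges for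
`Re s > l + r + 7/2`, has a meromorphic continuation to `Re s > l + r + 5/2`, and its order at
`s = l + r + 3 = dim R` is `r`. -/
theorem result (N : ℕ) (hN : N ≠ 0) (h2N : 2 ∣ N) (l : ℕ) (R₀ : Type) [CommRing R₀]
    (e : R₀ ≃+* MvPolynomial (Fin l) (Localization.Away (N : ℤ))) (g : ℕ) (hg : 1 ≤ g)
    (f₀ : R₀[X]) (hm : f₀.Monic) (hd : f₀.natDegree = 2 * g + 1) (r : ℕ) :
    IsDomain (fam f₀ r).R ∧ (fam f₀ r).PicFree r ∧
      (fam f₀ r).EulerOrder (l + r + 5 / 2) (l + r + 7 / 2) (l + r + 3) r := by
  have hn : Odd f₀.natDegree := ⟨g, hd⟩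
  have h1 : IsDomain R₀ := HypJac.hzg_domain e hN
  have h2 : CharZero R₀ := HypJac.hzg_charZero e hN
  exact ⟨HypJac.isDomain_fam hm hn (by omega) r,
    fun K _ _ _ => HypJac.classGroup_fam hm hn (by omega) r K,
    HypJac.ZN_continuation e hN h2N hm hn (by omega) r⟩

end Pool.Agent.Results.MP_9faec4_nt.HyperellipticJacobians
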